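import Mathlib

/-!
Every everywhere defined paranormal linear map on a complex Hilbert space is bounded.
-/

namespace Pool.Agent.Results.MP_69a59d_an.ParanormalBounded

open Topology Filter

/-- Baire category step: there is a constant `M` such that every `z` is a limit of vectors `w`
with `‖T (T w)‖ ≤ M * ‖z‖`. -/
theorem exists_approx {H : Type*} [NormedAddCommGroup H] [InnerProductSpace ℂ H]
    [CompleteSpace H] (T : H →ₗ[ℂ] H) :
    ∃ M : ℝ, 0 ≤ M ∧ ∀ z : H, ∀ δ : ℝ, 0 < δ → ∃ w : H, ‖T (T w)‖ ≤ M * ‖z‖ ∧ ‖w - z‖ < δ := by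
  have hcov : ⋃ k : ℕ, closure {x : H | ‖T (T x)‖ ≤ k} = Set.univ := by
    apply Set.eq_univ_of_forall
    intro x
    obtain ⟨k, hk⟩ := exists_nat_ge ‖T (T x)‖
    exact Set.mem_iUnion.2 ⟨k, subset_closure hk⟩
  obtain ⟨k, x0, hx0⟩ := nonempty_interior_of_iUnion_of_closed
    (fun k : ℕ => (isClosed_closure : IsClosed (closure {x : H | ‖T (T x)‖ ≤ k}))) hcov
  obtain ⟨r, hr, hball⟩ := Metric.isOpen_iff.1 isOpen_interior x0 hx0
  have hball' : Metric.ball x0 r ⊆ closure {x : H | ‖T (T x)‖ ≤ k} :=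
    hball.trans interior_subset
  have key : ∀ y : H, ‖y‖ < r → ∀ δ : ℝ, 0 < δ → ∃ w : H, ‖T (T w)‖ ≤ k ∧ ‖w - y‖ < δ := by
    intro y hy δ hδ
    have h1 : x0 + y ∈ closure {x : H | ‖T (T x)‖ ≤ k} := hball' (by simpa using hy)
    have h2 : x0 - y ∈ closure {x : H | ‖T (T x)‖ ≤ k} := hball' (by simpa using hy)
    obtain ⟨u, hu, hud⟩ := Metric.mem_closure_iff.1 h1 δ hδ
    obtain ⟨v, hv, hvd⟩ := Metric.mem_closure_iff.1 h2 δ hδ
    rw [dist_comm, dist_eq_norm] at hud hvd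
    simp only [Set.mem_ofPred_eq] at hu hv
    refine ⟨(1 / 2 : ℂ) • (u - v), ?_, ?_⟩
    · have : T (T ((1 / 2 : ℂ) • (u - v))) = (1 / 2 : ℂ) • (T (T u) - T (T v)) := by simp
      rw [this, norm_smul]
      have h3 := norm_sub_le (T (T u)) (T (T v))
      have h4 : ‖(1 / 2 : ℂ)‖ = 1 / 2 := by simp
      rw [h4]
      linarith
    · have : (1 / 2 : ℂ) • (u - v) - y = (1 / 2 : ℂ) • ((u - (x0 + y)) - (v - (x0 - y))) := by
        module
      rw [this, norm_smul]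
      have h3 := norm_sub_le (u - (x0 + y)) (v - (x0 - y))
      have h4 : ‖(1 / 2 : ℂ)‖ = 1 / 2 := by simp
      rw [h4]
      linarith
  refine ⟨2 * k / r, by positivity, ?_⟩
  intro z δ hδ
  by_cases hz : z = 0
  · refine ⟨0, by simp [hz], by simpa [hz] using hδ⟩
  have hz' : 0 < ‖z‖ := norm_pos_iff.2 hz
  set c : ℝ := 2 * ‖z‖ / r with hc
  have hcpos : 0 < c := by positivity
  have hy : ‖((c⁻¹ : ℝ) : ℂ) • z‖ < r := by
    rw [norm_smul, Complex.norm_real, Real.norm_of_nonneg (inv_nonneg.2 hcpos.le), hc]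
    field_simp
    linarith
  obtain ⟨w, hw1, hw2⟩ := key (((c⁻¹ : ℝ) : ℂ) • z) hy (δ / c) (by positivity)
  refine ⟨(c : ℂ) • w, ?_, ?_⟩
  · have : T (T ((c : ℂ) • w)) = (c : ℂ) • T (T w) := by simp
    rw [this, norm_smul, Complex.norm_real, Real.norm_of_nonneg hcpos.le]
    calc c * ‖T (T w)‖ ≤ c * k := by gcongr
      _ = 2 * k / r * ‖z‖ := by rw [hc]; ring
  · have : (c : ℂ) • w - z = (c : ℂ) • (w - ((c⁻¹ : ℝ) : ℂ) • z) := by
      rw [smul_sub, smul_smul, ← Complex.ofReal_mul, mul_inv_cancel₀ hcpos.ne']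
      simp
    rw [this, norm_smul, Complex.norm_real, Real.norm_of_nonneg hcpos.le]
    calc c * ‖w - ((c⁻¹ : ℝ) : ℂ) • z‖ < c * (δ / c) := by gcongr
      _ = δ := by field_simp

/-- **Every everywhere defined paranormal linear map `T : H → H` on a complex Hilbert space
is bounded** (negative answer to the question whether unbounded everywhere defined paranormal
operators exist). -/
theorem result (H : Type*) [NormedAddCommGroup H] [InnerProductSpace ℂ H] [CompleteSpace H]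
    (T : H →ₗ[ℂ] H) (hT : ∀ x : H, ‖T x‖ ^ 2 ≤ ‖T (T x)‖ * ‖x‖) :
    ∃ C : ℝ, ∀ x : H, ‖T x‖ ≤ C * ‖x‖ := by
  obtain ⟨M, hM, happ⟩ := exists_approx T
  refine ⟨√M, ?_⟩
  intro z
  have hbound : ∀ δ : ℝ, 0 < δ → ‖T z‖ ≤ √(M * ‖z‖ * (‖z‖ + δ)) +
      √((‖T (T z)‖ + M * ‖z‖) * δ) := by
    intro δ hδ
    obtain ⟨w, hw1, hw2⟩ := happ z δ hδ
    have h1 : ‖T w‖ ≤ √(M * ‖z‖ * (‖z‖ + δ)) := by
      apply Real.le_sqrt_of_sq_le
      have hw3 : ‖w‖ ≤ ‖z‖ + δ := by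
        have := norm_add_le z (w - z)
        rw [add_sub_cancel] at this
        linarith
      calc ‖T w‖ ^ 2 ≤ ‖T (T w)‖ * ‖w‖ := hT w
        _ ≤ (M * ‖z‖) * (‖z‖ + δ) := by gcongr
    have h2 : ‖T (z - w)‖ ≤ √((‖T (T z)‖ + M * ‖z‖) * δ) := by
      apply Real.le_sqrt_of_sq_le
      have h3 : ‖T (T (z - w))‖ ≤ ‖T (T z)‖ + M * ‖z‖ := by
        have : T (T (z - w)) = T (T z) - T (T w) := by simp
        rw [this]
        exact (norm_sub_le _ _).trans (by linarith)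
      have h4 : ‖z - w‖ ≤ δ := by rw [norm_sub_rev]; exact hw2.le
      calc ‖T (z - w)‖ ^ 2 ≤ ‖T (T (z - w))‖ * ‖z - w‖ := hT _
        _ ≤ (‖T (T z)‖ + M * ‖z‖) * δ := by gcongr
    calc ‖T z‖ = ‖T w + T (z - w)‖ := by rw [← map_add, add_sub_cancel]
      _ ≤ ‖T w‖ + ‖T (z - w)‖ := norm_add_le _ _
      _ ≤ _ := add_le_add h1 h2
  have hcont : Continuous fun δ : ℝ => √(M * ‖z‖ * (‖z‖ + δ)) +
      √((‖T (T z)‖ + M * ‖z‖) * δ) := by fun_prop
  have hlim : Tendsto (fun δ : ℝ => √(M * ‖z‖ * (‖z‖ + δ)) +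
      √((‖T (T z)‖ + M * ‖z‖) * δ)) (𝓝[>] 0) (𝓝 (√M * ‖z‖)) := by
    have h0 := (hcont.tendsto 0).mono_left (nhdsWithin_le_nhds (s := Set.Ioi (0 : ℝ)))
    have h1 : √(M * ‖z‖ * (‖z‖ + 0)) + √((‖T (T z)‖ + M * ‖z‖) * 0) = √M * ‖z‖ := by
      rw [add_zero, mul_zero, Real.sqrt_zero, add_zero, mul_assoc,
        Real.sqrt_mul hM, Real.sqrt_mul_self (norm_nonneg z)]
    rwa [h1] at h0
  refine ge_of_tendsto hlim ?_
  filter_upwards [self_mem_nhdsWithin] with δ hδ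
  exact hbound δ hδ

end Pool.Agent.Results.MP_69a59d_an.ParanormalBounded
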